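import Pool.Agent.H37.CNM.Stmts

/-!
# Board cnm, row PMZ: class two with cyclic centre
-/

set_option autoImplicit false

namespace Pool.CND

open Finset

/-- the central elements of order dividing `p` -/
def pmzC (G : Type) [Group G] (p : ℕ) : Subgroup G where
  carrier := {z | z ∈ Subgroup.center G ∧ z ^ p = 1}
  one_mem' := ⟨Subgroup.one_mem _, one_pow p⟩
  mul_mem' := by
    rintro a b ⟨ha, ha'⟩ ⟨hb, hb'⟩
    refine ⟨Subgroup.mul_mem _ ha hb, ?_⟩
    have hc : Commute a b := ((Subgroup.mem_center_iff.mp ha) b).symm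
    rw [hc.mul_pow, ha', hb', one_mul]
  inv_mem' := by
    rintro a ⟨ha, ha'⟩
    exact ⟨Subgroup.inv_mem _ ha, by rw [inv_pow, ha', inv_one]⟩

theorem pmz_card (p : ℕ) (G : Type) [Group G] [Finite G] (hp : p.Prime)
    (hn : ∃ n : ℕ, Nat.card G = p ^ n) (hG : Nontrivial G) (hc : IsCyclic (Subgroup.center G)) :
    Nat.card (pmzC G p) = p := by
  classical
  obtain ⟨n, hn⟩ := hn
  have := Fact.mk hp
  have hPG : IsPGroup p G := IsPGroup.of_card hn
  have hZ : Nontrivial (Subgroup.center G) := hPG.center_nontrivial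
  have : Fintype (Subgroup.center G) := Fintype.ofFinite _
  -- at most `p`
  have hle : Nat.card (pmzC G p) ≤ p := by
    have h1 := IsCyclic.card_pow_eq_one_le (α := Subgroup.center G) hp.pos
    refine le_trans ?_ h1
    rw [← Fintype.card_coe, ← Nat.card_eq_fintype_card]
    refine Nat.card_le_card_of_injective (fun z => ⟨⟨z.1, z.2.1⟩, ?_⟩) ?_
    · simp only [Finset.mem_filter, Finset.mem_univ, true_and]
      ext
      exact z.2.2
    · intro z w h
      ext
      have := congrArg (fun t => ((t : Subgroup.center G) : G)) (Subtype.ext_iff.mp h)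
      exact this
  -- a power of `p`
  have hd : Nat.card (pmzC G p) ∣ p ^ n := hn ▸ Subgroup.card_subgroup_dvd_card _
  obtain ⟨j, -, hj⟩ := (Nat.dvd_prime_pow hp).mp hd
  -- nontrivial
  have hne : j ≠ 0 := by
    intro h0
    rw [h0, pow_zero] at hj
    have hpd : p ∣ Nat.card (Subgroup.center G) := by
      obtain ⟨m, -, hm⟩ := (Nat.dvd_prime_pow hp).mp
        (hn ▸ Subgroup.card_subgroup_dvd_card (Subgroup.center G))
      have hm0 : m ≠ 0 := by
        intro h
        rw [h, pow_zero] at hm
        exact absurd hm (Finite.one_lt_card (α := Subgroup.center G)).ne'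
      rw [hm]
      exact dvd_pow_self p hm0
    obtain ⟨z, hz⟩ := exists_prime_orderOf_dvd_card' p hpd
    have hz1 : (z : G) ∈ pmzC G p := by
      refine ⟨z.2, ?_⟩
      have := pow_orderOf_eq_one z
      rw [hz] at this
      exact congrArg (fun t => ((t : Subgroup.center G) : G)) this
    have hb : pmzC G p = ⊥ := Subgroup.card_eq_one.mp hj
    rw [hb, Subgroup.mem_bot] at hz1
    have hz2 : z = 1 := by
      ext
      exact hz1
    rw [hz2, orderOf_one] at hz
    exact hp.one_lt.ne hz
  have hj1 : j = 1 := by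
    by_contra h
    have h2 : 2 ≤ j := by omega
    rw [hj] at hle
    have h3 : p ^ 2 ≤ p ^ j := Nat.pow_le_pow_right hp.pos h2
    have h4 := hp.two_le
    nlinarith
  rw [hj, hj1, pow_one]

theorem pmz_thm (h1 : S_PMX) : S_PMZ := by
  intro p k G _ _ _ _ _ hp hp2 hn hcyc hcl A hA
  obtain ⟨-, -, h3, -, h5⟩ := h1 p k G A hp hp2 hn hA
  rcases subsingleton_or_nontrivial G with hG | hG
  · have e1 : NG k G = 1 := h3.mpr fun x _ => by
      rw [Subgroup.mem_center_iff]
      intro g
      exact Subsingleton.elim _ _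
    rw [e1]
    have e2 : Subgroup.centralizer (A : Set G) = ⊤ := Subsingleton.elim _ _
    rw [e2, Subgroup.index_top]
  · apply h5
    refine ⟨pmzC G p, pmz_card p G hp hn hG hcyc, ?_⟩
    intro g a ha
    refine ⟨hcl g a, ?_⟩
    set z := g * a * g⁻¹ * a⁻¹ with hz
    have hzc : Commute z a := ((Subgroup.mem_center_iff.mp (hcl g a)) a).symm
    have h6 : g * a * g⁻¹ = z * a := by rw [hz]; group
    have h7 : (g * a * g⁻¹) ^ p = g * a ^ p * g⁻¹ := by rw [conj_pow]
    have h8 : a ^ p = 1 := hA.2.1.1 a ha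
    rw [h8, mul_one, mul_inv_cancel, h6, hzc.mul_pow, h8, mul_one] at h7
    exact h7

end Pool.CND
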